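import Mathlib

/-!
Vector bin packing: d-dimensional First Fit and the optimal number of bins.
-/

namespace Pool.Agent.R660.VP

open Finset

open scoped Classical in
/-- One step of `d`-dimensional First Fit. The list contains the load vectors of the bins, in the
order in which the bins were opened. The item `x` goes into the first bin of the list to which it
can be added while every coordinate of the load stays at most `1`; if there is no such bin, a new
bin is opened for `x` at the end of the list. -/
noncomputable def place {d : ℕ} (x : Fin d → ℝ) : List (Fin d → ℝ) → List (Fin d → ℝ)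
  | [] => [x]
  | b :: bs => if ∀ i, b i + x i ≤ 1 then (b + x) :: bs else b :: place x bs

/-- The loads of the bins of First Fit after the first `n` items `v 0, ..., v (n - 1)`. -/
noncomputable def binLoads {d : ℕ} (v : ℕ → Fin d → ℝ) : ℕ → List (Fin d → ℝ)
  | 0 => []
  | n + 1 => place (v n) (binLoads v n)

/-- The number of bins which First Fit uses for the items `v 0, ..., v (n - 1)`. -/
noncomputable def FF {d : ℕ} (v : ℕ → Fin d → ℝ) (n : ℕ) : ℕ := (binLoads v n).length

/-- The least number `k` such that the items `v 0, ..., v (n - 1)` can be packed into `k` bins:
`a t` is the bin of the item `v t`, and the coordinatewise sum of the items of every bin is at most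
`1` in every coordinate. -/
noncomputable def OPT {d : ℕ} (v : ℕ → Fin d → ℝ) (n : ℕ) : ℕ :=
  sInf {k : ℕ | ∃ a : Fin n → Fin k, ∀ (b : Fin k) (i : Fin d),
    ∑ t ∈ univ.filter (fun t => a t = b), v t i ≤ 1}

end Pool.Agent.R660.VP
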