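import Pool.Agent.R660.VP.Run

/-!
The deterministic part: the number of the bins opened in a window of times.
-/

namespace Pool.Agent.R660.VP

open Finset

variable {d : ℕ}

/-- the cell of a point in the grid of side `1 / k` -/
noncomputable def cell (k : ℕ) (x : Fin d → ℝ) : Fin d → ℕ := fun i => min ⌊(k : ℝ) * x i⌋₊ (k - 1)

/-- the cells -/
def cells (d k : ℕ) : Finset (Fin d → ℕ) := Fintype.piFinset fun _ => range k

theorem card_cells (d k : ℕ) : (cells d k).card = k ^ d := by
  unfold cells
  rw [Fintype.card_piFinset_const, card_range]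

theorem mem_cells {k : ℕ} {c : Fin d → ℕ} : c ∈ cells d k ↔ ∀ i, c i < k := by
  unfold cells
  rw [Fintype.mem_piFinset]
  simp only [mem_range]

theorem cell_mem {k : ℕ} (hk : 1 ≤ k) (x : Fin d → ℝ) : cell k x ∈ cells d k := by
  rw [mem_cells]
  intro i
  have : cell k x i ≤ k - 1 := min_le_right _ _
  omega

theorem le_cell {k : ℕ} (hk : 1 ≤ k) {x : Fin d → ℝ} (hx : ∀ i, x i ≤ 1) (i : Fin d) :
    (k : ℝ) * x i ≤ cell k x i + 1 := by
  unfold cell
  rcases le_total ⌊(k : ℝ) * x i⌋₊ (k - 1) with h | h
  · rw [min_eq_left h]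
    exact (Nat.lt_floor_add_one _).le
  · rw [min_eq_right h]
    have h1 : ((k - 1 : ℕ) : ℝ) = k - 1 := by
      rw [Nat.cast_sub hk, Nat.cast_one]
    rw [h1]
    have h2 : (0 : ℝ) ≤ k := Nat.cast_nonneg k
    nlinarith [hx i]

/-- the number of the items of a cell in a window -/
noncomputable def cnt (v : ℕ → Fin d → ℝ) (k s T : ℕ) (c : Fin d → ℕ) : ℕ :=
  ((Ico s T).filter fun t => cell k (v t) = c).card

/-- `z` fits at the time `T` in a bin opened before the time `s` -/
def Fits (F : ℕ → ℕ) (ℓ : ℕ → ℕ → Fin d → ℝ) (T s : ℕ) (z : Fin d → ℝ) : Prop :=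
  ∃ j < F s, ∀ i, ℓ T j i + z i ≤ 1

/-- the corners of the grid -/
noncomputable def cor (k : ℕ) (e : Fin d → ℕ) : Fin d → ℝ := fun i => (e i : ℝ) / k

theorem Fits.mono_z {F : ℕ → ℕ} {ℓ : ℕ → ℕ → Fin d → ℝ} {T s : ℕ} {z z' : Fin d → ℝ}
    (h : Fits F ℓ T s z) (hz : ∀ i, z' i ≤ z i) : Fits F ℓ T s z' := by
  obtain ⟨j, hj, h1⟩ := h
  exact ⟨j, hj, fun i => by linarith [h1 i, hz i]⟩

namespace Run

variable {v : ℕ → Fin d → ℝ} {a F : ℕ → ℕ} {ℓ : ℕ → ℕ → Fin d → ℝ} (R : Run v a F ℓ)

include R

theorem fits_mono {T s s' : ℕ} (h : s ≤ s') {z : Fin d → ℝ} (hz : Fits F ℓ T s z) :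
    Fits F ℓ T s' z := by
  obtain ⟨j, hj, h1⟩ := hz
  exact ⟨j, hj.trans_le (R.F_mono h), h1⟩

theorem not_fits {T t0 t : ℕ} (htT : t < T) (ha : F t0 ≤ a t) : ¬ Fits F ℓ T t0 (v t) := by
  rintro ⟨j, hj, h1⟩
  refine R.nofit t j (by omega) fun i => ?_
  have := R.l_mono htT.le (j := j) i
  linarith [h1 i]

open scoped Classical in
/-- **The number of the bins opened in a window.** -/
theorem window {k t0 s0 T : ℕ} (hk : 3 ≤ k) (h0 : t0 ≤ s0) (h1 : s0 ≤ T)
    (hgood : ∀ e ∈ cells d k, Fits F ℓ T s0 (cor k (e + 1)) → Fits F ℓ T t0 (cor k e)) :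
    ∃ G ⊆ (cells d k).filter (fun c => ∀ i, c i + 3 ≤ k),
      2 * F T + ∑ c ∈ G, cnt v k t0 T (fun i => k - 3 - c i) ≤
        2 * F t0 + (T - t0) + (T - s0) +
          ∑ c ∈ (cells d k).filter (fun c => ¬ ∀ i, c i + 3 ≤ k), cnt v k t0 T c +
          ∑ c ∈ G, cnt v k t0 T c := by
  have hk0 : (0 : ℝ) < k := by exact_mod_cast (by omega : 0 < k)
  let G : Finset (Fin d → ℕ) := (cells d k).filter fun c => (∀ i, c i + 3 ≤ k) ∧
    Fits F ℓ T t0 (cor k fun i => k - 2 - c i)
  refine ⟨G, ?_, ?_⟩
  · intro c hc
    rw [mem_filter] at hc ⊢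
    exact ⟨hc.1, hc.2.1⟩
  -- the items of the bins of the window
  let W := Ico t0 T
  let A := W.filter fun t => F t0 ≤ a t
  let S := W.filter fun t => F t0 ≤ a t ∧ ∀ s ∈ W, a s = a t → s = t
  have hFT : F t0 ≤ F T := R.F_mono (h0.trans h1)
  have hA : 2 * (F T - F t0) ≤ A.card + S.card := by
    have hAc : A.card = ∑ j ∈ Ico (F t0) (F T), (A.filter fun t => a t = j).card := by
      refine card_eq_sum_card_fiberwise ?_
      intro t ht
      rw [mem_coe, mem_filter, mem_Ico] at ht
      rw [mem_coe, mem_Ico]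
      exact ⟨ht.2, R.a_lt_of ht.1.2⟩
    have hSc : S.card = ∑ j ∈ Ico (F t0) (F T), (S.filter fun t => a t = j).card := by
      refine card_eq_sum_card_fiberwise ?_
      intro t ht
      rw [mem_coe, mem_filter, mem_Ico] at ht
      rw [mem_coe, mem_Ico]
      exact ⟨ht.2.1, R.a_lt_of ht.1.2⟩
    rw [hAc, hSc, ← sum_add_distrib]
    have h2 : ∑ j ∈ Ico (F t0) (F T), 2 = 2 * (F T - F t0) := by
      rw [sum_const, Nat.card_Ico, smul_eq_mul, mul_comm]
    rw [← h2]
    refine sum_le_sum fun j hj => ?_
    rw [mem_Ico] at hj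
    obtain ⟨t, htT, hta, -⟩ := R.exists_open hj.2
    have ht0 : t0 ≤ t := R.le_of_a (by omega)
    have htA : t ∈ A.filter fun t => a t = j := by
      rw [mem_filter, mem_filter, mem_Ico]
      exact ⟨⟨⟨ht0, htT⟩, by omega⟩, hta⟩
    by_cases hc : 2 ≤ (A.filter fun t => a t = j).card
    · omega
    · have h3 : (A.filter fun t => a t = j).card = 1 := by
        have := card_pos.2 ⟨t, htA⟩
        omega
      obtain ⟨t', ht'⟩ := card_eq_one.1 h3
      have htt : t = t' := by
        rw [ht', mem_singleton] at htA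
        exact htA
      have htS : t ∈ S.filter fun t => a t = j := by
        rw [mem_filter, mem_filter, mem_Ico]
        refine ⟨⟨⟨ht0, htT⟩, by omega, fun s hs has => ?_⟩, hta⟩
        have h4 : s ∈ A.filter fun t => a t = j := by
          rw [mem_filter, mem_filter]
          exact ⟨⟨hs, by omega⟩, by omega⟩
        rw [ht', mem_singleton] at h4
        omega
      have := card_pos.2 ⟨t, htS⟩
      omega
  -- the items which are placed in the old bins
  have hB : A.card + ∑ c ∈ G, cnt v k t0 T (fun i => k - 3 - c i) ≤ T - t0 := by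
    have h2 : ∑ c ∈ G, cnt v k t0 T (fun i => k - 3 - c i) =
        ∑ c ∈ G.image (fun c : Fin d → ℕ => fun i => k - 3 - c i), cnt v k t0 T c := by
      rw [sum_image]
      intro c hc c' hc' h
      rw [mem_coe, mem_filter] at hc hc'
      funext i
      have h3 := congrFun h i
      have h4 := hc.2.1 i
      have h5 := hc'.2.1 i
      simp only at h3
      omega
    rw [h2]
    unfold cnt
    rw [sum_card_fiberwise_eq_card_filter]
    have h3 : Disjoint A ((Ico t0 T).filter fun t => cell k (v t) ∈
        G.image (fun c : Fin d → ℕ => fun i => k - 3 - c i)) := by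
      rw [disjoint_left]
      intro t ht ht'
      rw [mem_filter, mem_Ico] at ht
      rw [mem_filter, mem_image] at ht'
      obtain ⟨-, c, hc, hcc⟩ := ht'
      rw [mem_filter] at hc
      refine R.not_fits ht.1.2 ht.2 (hc.2.2.mono_z fun i => ?_)
      have h4 := le_cell (k := k) (by omega) (R.v1 t) i
      have h5 : k - 3 - c i = cell k (v t) i := congrFun hcc i
      rw [← h5] at h4
      have h6 := hc.2.1 i
      unfold cor
      rw [le_div_iff₀ hk0, mul_comm]
      refine h4.trans ?_
      have h7 : k - 3 - c i + 1 = k - 2 - c i := by omega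
      exact_mod_cast h7.le
    rw [← card_union_of_disjoint h3]
    have h4 : (A ∪ ((Ico t0 T).filter fun t => cell k (v t) ∈
        G.image (fun c : Fin d → ℕ => fun i => k - 3 - c i))) ⊆ Ico t0 T :=
      union_subset (filter_subset _ _) (filter_subset _ _)
    have := card_le_card h4
    rwa [Nat.card_Ico] at this
  -- the bins with one item
  have hS : S.card ≤ (T - s0) +
      ∑ c ∈ (cells d k).filter (fun c => ¬ ∀ i, c i + 3 ≤ k), cnt v k t0 T c +
      ∑ c ∈ G, cnt v k t0 T c := by
    unfold cnt
    rw [sum_card_fiberwise_eq_card_filter, sum_card_fiberwise_eq_card_filter]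
    have h2 : S ⊆ (Ico s0 T ∪ (Ico t0 T).filter fun t => cell k (v t) ∈
        (cells d k).filter (fun c => ¬ ∀ i, c i + 3 ≤ k)) ∪
        (Ico t0 T).filter fun t => cell k (v t) ∈ G := by
      intro t ht
      rw [mem_filter, mem_Ico] at ht
      obtain ⟨⟨ht0, htT⟩, hta, htu⟩ := ht
      rw [mem_union, mem_union]
      by_cases hts : s0 ≤ t
      · exact Or.inl (Or.inl (mem_Ico.2 ⟨hts, htT⟩))
      · have hcm := cell_mem (k := k) (by omega) (v t)
        by_cases hc : ∀ i, cell k (v t) i + 3 ≤ k
        · right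
          rw [mem_filter, mem_Ico, mem_filter]
          refine ⟨⟨ht0, htT⟩, hcm, hc, ?_⟩
          have he : (fun i => k - 2 - cell k (v t) i) ∈ cells d k := by
            rw [mem_cells]
            intro i
            have := hc i
            omega
          refine hgood _ he ⟨a t, ?_, fun i => ?_⟩
          · exact (R.a_lt t).trans_le (R.F_mono (by omega))
          · have hl : ℓ T (a t) i = v t i := by
              rw [R.ls]
              have h3 : (range T).filter (fun s => a s = a t) = {t} := by
                ext s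
                rw [mem_filter, mem_range, mem_singleton]
                constructor
                · rintro ⟨hs, has⟩
                  exact htu s (mem_Ico.2 ⟨R.le_of_a (by omega), hs⟩) has
                · rintro rfl
                  exact ⟨htT, rfl⟩
              rw [h3, sum_singleton]
            rw [hl]
            have h4 := le_cell (k := k) (by omega) (R.v1 t) i
            have h5 := hc i
            unfold cor
            have h6 : (((fun i => k - 2 - cell k (v t) i) + 1 : Fin d → ℕ) i : ℝ) =
                k - 1 - cell k (v t) i := by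
              have h7 : ((fun i => k - 2 - cell k (v t) i) + 1 : Fin d → ℕ) i +
                  1 + cell k (v t) i = k := by
                simp only [Pi.add_apply, Pi.one_apply]
                omega
              have h8 : (((fun i => k - 2 - cell k (v t) i) + 1 : Fin d → ℕ) i : ℝ) +
                  1 + cell k (v t) i = k := by exact_mod_cast h7
              linarith
            rw [h6, ← sub_nonneg]
            have h9 : 1 - (v t i + ((k : ℝ) - 1 - cell k (v t) i) / k) =
                (cell k (v t) i + 1 - k * v t i) / k := by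
              field_simp
              ring
            rw [h9]
            exact div_nonneg (by linarith) hk0.le
        · left; right
          rw [mem_filter, mem_Ico, mem_filter]
          exact ⟨⟨ht0, htT⟩, hcm, hc⟩
    refine (card_le_card h2).trans ((card_union_le _ _).trans ?_)
    refine Nat.add_le_add_right ((card_union_le _ _).trans ?_) _
    rw [Nat.card_Ico]
  omega

/-- **Scales.** -/
theorem exists_scale {k K l0 T : ℕ} (hK : 1 ≤ K) :
    ∃ l < k ^ d + 1, ∀ e ∈ cells d k, Fits F ℓ T (T - K ^ (l0 + l)) (cor k (e + 1)) →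
      Fits F ℓ T (T - K ^ (l0 + l + 1)) (cor k e) := by
  classical
  by_contra hcon
  push Not at hcon
  choose! e he h1 h2 using hcon
  obtain ⟨l, hl, l', hl', hne, hee⟩ := exists_ne_map_eq_of_card_lt_of_maps_to
    (s := range (k ^ d + 1)) (t := cells d k) (f := e) (by rw [card_cells, card_range]; omega)
    (by
      intro l hl
      rw [mem_coe, mem_range] at hl
      exact he l hl)
  rw [mem_range] at hl hl'
  have key : ∀ l < k ^ d + 1, ∀ l' < k ^ d + 1, l < l' → e l = e l' → False := by
    intro l hl l' hl' hlt hee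
    refine h2 l hl ?_
    have h3 := h1 l' hl'
    rw [← hee] at h3
    have h4 : T - K ^ (l0 + l') ≤ T - K ^ (l0 + l + 1) :=
      Nat.sub_le_sub_left (Nat.pow_le_pow_right hK (by omega)) _
    refine (R.fits_mono h4 h3).mono_z fun i => ?_
    unfold cor
    simp only [Pi.add_apply, Pi.one_apply]
    push_cast
    exact div_le_div_of_nonneg_right (by linarith) (Nat.cast_nonneg k)
  rcases lt_or_gt_of_ne hne with h | h
  · exact key l hl l' hl' h hee
  · exact key l' hl' l hl h hee.symm

end Run

end Pool.Agent.R660.VP
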