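import Pool.Agent.R660.VP.Run

/-!
Comparison of First Fit with the optimal number of bins.
-/

namespace Pool.Agent.R660.VP

open Finset

variable {d : ℕ}

namespace Run

variable {v : ℕ → Fin d → ℝ} {a F : ℕ → ℕ} {ℓ : ℕ → ℕ → Fin d → ℝ} (R : Run v a F ℓ)

include R

theorem l_succ (t j : ℕ) (i : Fin d) :
    ℓ (t + 1) j i = if a t = j then ℓ t j i + v t i else ℓ t j i := by
  rw [R.ls, R.ls, range_add_one, filter_insert]
  split_ifs with h
  · rw [sum_insert (by simp), add_comm]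
  · rfl

theorem l_le_one (t j : ℕ) (i : Fin d) : ℓ t j i ≤ 1 := by
  induction t with
  | zero => rw [R.ls]; simp
  | succ t ih =>
    rw [R.l_succ]
    split_ifs with h
    · rw [← h]; exact R.fit t i
    · exact ih

theorem l_nonneg (t j : ℕ) (i : Fin d) : 0 ≤ ℓ t j i := by
  rw [R.ls]
  exact sum_nonneg fun s _ => R.v0 s i

/-- the packing of First Fit -/
theorem mem_opt (n : ℕ) : F n ∈ {k : ℕ | ∃ a : Fin n → Fin k, ∀ (b : Fin k) (i : Fin d),
    ∑ t ∈ univ.filter (fun t => a t = b), v t i ≤ 1} := by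
  refine ⟨fun t => ⟨a t, R.a_lt_of t.2⟩, fun b i => ?_⟩
  have h1 := R.l_le_one n b i
  rw [R.ls] at h1
  refine le_trans (le_of_eq ?_) h1
  have h2 : (range n).filter (fun s => a s = b) =
      (univ.filter fun t : Fin n => (⟨a t, R.a_lt_of t.2⟩ : Fin (F n)) = b).map
        Fin.valEmbedding := by
    ext s
    rw [mem_filter, mem_range, mem_map]
    constructor
    · rintro ⟨hs, has⟩
      refine ⟨⟨s, hs⟩, ?_, rfl⟩
      rw [mem_filter]
      exact ⟨mem_univ _, Fin.ext has⟩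
    · rintro ⟨t, ht, rfl⟩
      rw [mem_filter] at ht
      exact ⟨t.2, congrArg Fin.val ht.2⟩
  rw [h2, sum_map]
  rfl

theorem opt_le (n : ℕ) : OPT v n ≤ F n := Nat.sInf_le (R.mem_opt n)

theorem sum_le_opt (n : ℕ) (i : Fin d) : ∑ t ∈ range n, v t i ≤ OPT v n := by
  obtain ⟨b, hb⟩ := Nat.sInf_mem (⟨_, R.mem_opt n⟩ : Set.Nonempty {k : ℕ |
    ∃ a : Fin n → Fin k, ∀ (b : Fin k) (i : Fin d),
      ∑ t ∈ univ.filter (fun t => a t = b), v t i ≤ 1})
  rw [← Fin.sum_univ_eq_sum_range (fun t => v t i) n]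
  have h1 := sum_fiberwise (univ : Finset (Fin n)) b (fun t : Fin n => v t i)
  rw [← h1]
  refine (sum_le_sum fun c _ => hb c i).trans ?_
  rw [sum_const, card_univ, Fintype.card_fin, nsmul_eq_mul, mul_one]
  rfl

theorem one_le_opt {n : ℕ} (hn : 1 ≤ n) : 1 ≤ OPT v n := by
  obtain ⟨b, hb⟩ := Nat.sInf_mem (⟨_, R.mem_opt n⟩ : Set.Nonempty {k : ℕ |
    ∃ a : Fin n → Fin k, ∀ (b : Fin k) (i : Fin d),
      ∑ t ∈ univ.filter (fun t => a t = b), v t i ≤ 1})
  have := (b ⟨0, hn⟩).2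
  change _ < OPT v n at this
  omega

/-- two consecutive bins -/
theorem consecutive {n j : ℕ} (hj : j + 1 < F n) :
    1 ≤ ∑ i, ℓ n j i + ∑ i, ℓ n (j + 1) i := by
  obtain ⟨t, htn, hta, -⟩ := R.exists_open hj
  have h1 := R.nofit t j (by omega)
  push Not at h1
  obtain ⟨i, hi⟩ := h1
  have h2 : ℓ t j i ≤ ℓ n j i := R.l_mono htn.le i
  have h3 : v t i ≤ ℓ n (j + 1) i := by
    rw [R.ls]
    exact single_le_sum (f := fun s => v s i) (fun s _ => R.v0 s i)
      (mem_filter.2 ⟨mem_range.2 htn, hta⟩)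
  have h4 : ℓ n j i ≤ ∑ i, ℓ n j i :=
    single_le_sum (f := fun i => ℓ n j i) (fun i _ => R.l_nonneg n j i) (mem_univ i)
  have h5 : ℓ n (j + 1) i ≤ ∑ i, ℓ n (j + 1) i :=
    single_le_sum (f := fun i => ℓ n (j + 1) i) (fun i _ => R.l_nonneg n (j + 1) i) (mem_univ i)
  linarith

theorem sum_loads (n : ℕ) (i : Fin d) : ∑ j ∈ range (F n), ℓ n j i = ∑ t ∈ range n, v t i := by
  have h1 : ∀ t ∈ range n, a t ∈ range (F n) := by
    intro t ht
    rw [mem_range] at ht ⊢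
    exact R.a_lt_of ht
  rw [← sum_fiberwise_of_maps_to h1]
  exact sum_congr rfl fun j _ => R.ls n j i

/-- the number of the bins is at most `(2 d + 1) OPT` -/
theorem le_opt (n : ℕ) : (F n : ℝ) ≤ (2 * d + 1) * OPT v n := by
  rcases Nat.eq_zero_or_pos n with rfl | hn
  · rw [R.F0, Nat.cast_zero]
    positivity
  have h1 : (1 : ℝ) ≤ OPT v n := by exact_mod_cast R.one_le_opt hn
  have h2 : ∀ N : ℕ, N < F n → (N : ℝ) ≤ ∑ j ∈ range N, (∑ i, ℓ n j i + ∑ i, ℓ n (j + 1) i) := by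
    intro N hN
    have h3 : ∀ j ∈ range N, (1 : ℝ) ≤ ∑ i, ℓ n j i + ∑ i, ℓ n (j + 1) i := by
      intro j hj
      rw [mem_range] at hj
      exact R.consecutive (by omega)
    have h4 := sum_le_sum h3
    rw [sum_const, card_range, nsmul_eq_mul, mul_one] at h4
    exact h4
  have hF : 1 ≤ F n := by
    have := R.a_lt_of (t := 0) (T := n) hn
    omega
  obtain ⟨N, hN⟩ : ∃ N, F n = N + 1 := ⟨F n - 1, by omega⟩
  have h3 := h2 N (by omega)
  rw [sum_add_distrib] at h3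
  have hs : ∀ j, 0 ≤ ∑ i, ℓ n j i := fun j => sum_nonneg fun i _ => R.l_nonneg n j i
  have h4 : ∑ j ∈ range N, ∑ i, ℓ n j i ≤ ∑ j ∈ range (F n), ∑ i, ℓ n j i := by
    rw [hN, sum_range_succ]
    linarith [hs N]
  have h5 : ∑ j ∈ range N, ∑ i, ℓ n (j + 1) i ≤ ∑ j ∈ range (F n), ∑ i, ℓ n j i := by
    rw [hN, sum_range_succ' (fun j => ∑ i, ℓ n j i)]
    linarith [hs 0]
  have h6 : ∑ j ∈ range (F n), ∑ i, ℓ n j i ≤ d * OPT v n := by
    rw [sum_comm, sum_congr rfl fun i _ => R.sum_loads n i]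
    refine (sum_le_sum fun i _ => R.sum_le_opt n i).trans ?_
    rw [sum_const, card_univ, Fintype.card_fin, nsmul_eq_mul]
  rw [hN]
  push_cast
  nlinarith

end Run

end Pool.Agent.R660.VP
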