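import Pool.Agent.R660.VP.Prob
import Pool.Agent.R660.VP.Opt

/-!
First Fit is asymptotically optimal for random vector packing.
-/

namespace Pool.Agent.R660.VP

open Finset MeasureTheory ProbabilityTheory Filter Topology

variable {d : ℕ} {Ω : Type*} [MeasurableSpace Ω] {P : Measure Ω} [IsProbabilityMeasure P]
  {V : ℕ → Ω → Fin d → ℝ}

theorem meas_ratio (hV : ∀ t, Measurable (V t)) (n : ℕ) :
    Measurable fun ω => (FF (fun t => V t ω) n : ℝ) / OPT (fun t => V t ω) n := by
  have h1 : Measurable fun ω => (FF (fun t => V t ω) n : ℝ) :=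
    measurable_from_top.comp (meas_FF hV n)
  have h2 : Measurable fun ω => (OPT (fun t => V t ω) n : ℝ) :=
    measurable_from_top.comp (meas_OPT hV n)
  exact h1.div h2

omit [IsProbabilityMeasure P] in
theorem ae_run (hV : ∀ t, Measurable (V t))
    (hlaw : ∀ t, P.map (V t) = volume.restrict (Set.Icc 0 1)) :
    ∀ᵐ ω ∂P, ∃ a ℓ, Run (fun t => V t ω) a (FF fun t => V t ω) ℓ := by
  have h1 : ∀ᵐ ω ∂P, ∀ t, (∀ i, 0 ≤ V t ω i) ∧ ∀ i, V t ω i ≤ 1 :=
    ae_all_iff.2 fun t => ae_mem (hV t) (hlaw t)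
  filter_upwards [h1] with ω hω
  exact exists_run (fun t => (hω t).1) fun t => (hω t).2

omit [IsProbabilityMeasure P] in
theorem ratio_le (hV : ∀ t, Measurable (V t))
    (hlaw : ∀ t, P.map (V t) = volume.restrict (Set.Icc 0 1)) (n : ℕ) :
    ∀ᵐ ω ∂P, (FF (fun t => V t ω) n : ℝ) / OPT (fun t => V t ω) n ≤ 2 * d + 1 := by
  filter_upwards [ae_run hV hlaw] with ω hω
  obtain ⟨a, ℓ, R⟩ := hω
  exact div_le_of_le_mul₀ (Nat.cast_nonneg _) (by positivity) (R.le_opt n)

theorem integrable_ratio (hV : ∀ t, Measurable (V t))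
    (hlaw : ∀ t, P.map (V t) = volume.restrict (Set.Icc 0 1)) (n : ℕ) :
    Integrable (fun ω => (FF (fun t => V t ω) n : ℝ) / OPT (fun t => V t ω) n) P := by
  refine Integrable.of_bound (meas_ratio hV n).aestronglyMeasurable (2 * d + 1) ?_
  filter_upwards [ratio_le hV hlaw n] with ω hω
  rw [Real.norm_eq_abs, abs_of_nonneg (by positivity)]
  exact hω

theorem one_le_integral (hV : ∀ t, Measurable (V t))
    (hlaw : ∀ t, P.map (V t) = volume.restrict (Set.Icc 0 1)) {n : ℕ} (hn : 1 ≤ n) :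
    1 ≤ ∫ ω, (FF (fun t => V t ω) n : ℝ) / OPT (fun t => V t ω) n ∂P := by
  have h1 : ∫ _, (1 : ℝ) ∂P ≤ ∫ ω, (FF (fun t => V t ω) n : ℝ) / OPT (fun t => V t ω) n ∂P := by
    refine integral_mono_ae (integrable_const 1) (integrable_ratio hV hlaw n) ?_
    filter_upwards [ae_run hV hlaw] with ω hω
    obtain ⟨a, ℓ, R⟩ := hω
    have h2 : (1 : ℝ) ≤ OPT (fun t => V t ω) n := by exact_mod_cast R.one_le_opt hn
    have h3 : (OPT (fun t => V t ω) n : ℝ) ≤ FF (fun t => V t ω) n := by
      exact_mod_cast R.opt_le n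
    rw [le_div_iff₀ (by linarith), one_mul]
    exact h3
  simpa using h1

/-- the set of the exceptional times -/
def badSet (V : ℕ → Ω → Fin d → ℝ) (k T : ℕ) : Set Ω :=
  {ω | Mx d k ≤ T ∧ ¬ Conc (fun t => V t ω) k T}

theorem meas_badSet (hV : ∀ t, Measurable (V t)) (k T : ℕ) : MeasurableSet (badSet V k T) := by
  have h1 : {ω | Conc (fun t => V t ω) k T} = ⋂ l ∈ Set.Iio (k ^ d + 1), ⋂ c ∈ cells d k,
      {ω | |(cnt (fun t => V t ω) k (T - k ^ (lz d + l + 1)) T c : ℝ) -
        (k : ℝ) ^ (lz d + l + 1) / k ^ d| ≤ (k : ℝ) ^ (lz d + l + 1) / k ^ (d + 1)} := by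
    ext ω
    simp only [Set.mem_iInter, Set.mem_Iio]
    exact Iff.rfl
  have h2 : MeasurableSet {ω | Conc (fun t => V t ω) k T} := by
    rw [h1]
    refine MeasurableSet.biInter (Set.to_countable _) fun l _ => ?_
    refine Finset.measurableSet_biInter _ fun c _ => ?_
    exact measurableSet_le ((meas_cnt hV k _ T c).sub_const _).abs measurable_const
  have h3 : badSet V k T = {_ω | Mx d k ≤ T} ∩ {ω | Conc (fun t => V t ω) k T}ᶜ := rfl
  rw [h3]
  exact (MeasurableSet.const _).inter h2.compl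

theorem prob_badSet (hV : ∀ t, Measurable (V t)) (hind : iIndepFun V P)
    (hlaw : ∀ t, P.map (V t) = volume.restrict (Set.Icc 0 1)) {k : ℕ} (hk : 3 ≤ k) (T : ℕ) :
    P.real (badSet V k T) ≤ 1 / k := by
  by_cases hT : Mx d k ≤ T
  · refine ENNReal.toReal_le_of_le_ofReal (by positivity) ?_
    refine (measure_mono ?_).trans (prob_bad hV hind hlaw hk hT)
    rintro ω ⟨-, hω⟩
    exact hω
  · have : badSet V k T = ∅ := by
      ext ω
      simp [badSet, hT]
    rw [this, measureReal_empty]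
    positivity

open scoped Classical in
theorem upper (hd : 1 ≤ d) (hV : ∀ t, Measurable (V t)) (hind : iIndepFun V P)
    (hlaw : ∀ t, P.map (V t) = volume.restrict (Set.Icc 0 1)) {k : ℕ} (hk : 3 ≤ k) {n : ℕ}
    (hn : 1 ≤ n) :
    ∫ ω, (FF (fun t => V t ω) n : ℝ) / OPT (fun t => V t ω) n ∂P ≤
      (1 / 2 + (4 * d + 4) / k) / (1 / 2 - 1 / k) +
        ((1 / k + Mx d k) / (1 / 2 - 1 / k) + (2 * d + 1) * k ^ 2) / n := by
  have hkr : (3 : ℝ) ≤ k := by exact_mod_cast hk
  have hk0 : (0 : ℝ) < k := by linarith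
  have hn0 : (0 : ℝ) < n := by exact_mod_cast hn
  have hD : (0 : ℝ) < 1 / 2 - 1 / k := by
    have h1 : (1 : ℝ) / k ≤ 1 / 3 := one_div_le_one_div_of_le (by norm_num) hkr
    linarith
  let i0 : Fin d := ⟨0, hd⟩
  -- the sum of the first coordinates
  obtain ⟨A, hA⟩ : ∃ A : Set Ω, A = {ω | (n : ℝ) / k ≤
    |∑ t ∈ range n, V t ω i0 - (range n).card * (1 / 2 : ℝ)|} := ⟨_, rfl⟩
  have hVi : ∀ t, Measurable fun ω => V t ω i0 := fun t => (measurable_pi_apply i0).comp (hV t)
  have hAm : MeasurableSet A := by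
    rw [hA]
    refine measurableSet_le measurable_const ?_
    exact ((Finset.measurable_sum _ fun t _ => hVi t).sub_const _).abs
  have hAP : P.real A ≤ k ^ 2 / n := by
    refine ENNReal.toReal_le_of_le_ofReal (by positivity) ?_
    have h1 := conc (P := P) (Y := fun t ω => V t ω i0) hVi
      (fun t => by
        filter_upwards [ae_mem (hV t) (hlaw t)] with ω hω
        rw [abs_le]
        exact ⟨by linarith [hω.1 i0], hω.2 i0⟩)
      (fun s t hst => (hind.indepFun hst).comp (measurable_pi_apply i0) (measurable_pi_apply i0))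
      (q := 1 / 2) (fun t => mean_coord (hV t) (hlaw t) i0) (range n)
      (show (0 : ℝ) < n / k by positivity)
    rw [hA]
    refine h1.trans (ENNReal.ofReal_le_ofReal (le_of_eq ?_))
    rw [card_range]
    field_simp
  -- the number of the exceptional times
  obtain ⟨B, hBd⟩ : ∃ B : Ω → ℝ, B = fun ω => ∑ T ∈ range (n + 1),
    (badSet V k T).indicator (fun _ => (1 : ℝ)) ω := ⟨_, rfl⟩
  have hBi : Integrable B P := by
    rw [hBd]
    exact integrable_finsetSum _ fun T _ =>
      (integrable_const (1 : ℝ)).indicator (meas_badSet hV k T)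
  have hBint : ∫ ω, B ω ∂P ≤ (n + 1) / k := by
    rw [hBd]
    rw [integral_finsetSum _ fun T _ =>
      (integrable_const (1 : ℝ)).indicator (meas_badSet hV k T)]
    have h1 : ∀ T ∈ range (n + 1), ∫ ω, (badSet V k T).indicator (fun _ => (1 : ℝ)) ω ∂P ≤
        1 / k := by
      intro T _
      rw [integral_indicator_const _ (meas_badSet hV k T), smul_eq_mul, mul_one]
      exact prob_badSet hV hind hlaw hk T
    refine (sum_le_sum h1).trans (le_of_eq ?_)
    rw [sum_const, card_range, nsmul_eq_mul]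
    push_cast
    ring
  have hae : ∀ᵐ ω ∂P, (FF (fun t => V t ω) n : ℝ) / OPT (fun t => V t ω) n ≤
      ((1 / 2 + (4 * d + 3) / k) * n + B ω + Mx d k) / (n * (1 / 2 - 1 / k)) +
        (2 * d + 1) * A.indicator (fun _ => (1 : ℝ)) ω := by
    filter_upwards [ae_run hV hlaw, ratio_le hV hlaw n] with ω hω hω2
    obtain ⟨a, ℓ, R⟩ := hω
    have hB0 : B ω = (((range (n + 1)).filter fun T => Mx d k ≤ T ∧
        ¬ Conc (fun t => V t ω) k T).card : ℝ) := by
      rw [hBd, card_filter]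
      push_cast
      refine sum_congr rfl fun T _ => ?_
      by_cases h : Mx d k ≤ T ∧ ¬ Conc (fun t => V t ω) k T
      · rw [if_pos h, Set.indicator_of_mem (by exact h)]
      · rw [if_neg h, Set.indicator_of_notMem (by exact h)]
    have hFB := R.bound hk n
    rw [← hB0] at hFB
    have hF0 : (0 : ℝ) ≤ FF (fun t => V t ω) n := Nat.cast_nonneg _
    have hnum : (0 : ℝ) ≤ (1 / 2 + (4 * d + 3) / k) * n + B ω + Mx d k := hF0.trans hFB
    by_cases hωA : ω ∈ A
    · rw [Set.indicator_of_mem hωA, mul_one]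
      have h1 : (0 : ℝ) ≤ ((1 / 2 + (4 * d + 3) / k) * n + B ω + Mx d k) /
          (n * (1 / 2 - 1 / k)) := div_nonneg hnum (by positivity)
      linarith
    · rw [Set.indicator_of_notMem hωA, mul_zero, add_zero]
      rw [hA, Set.mem_ofPred_eq, not_le, card_range] at hωA
      have h1 := (abs_lt.1 hωA).1
      have h2 := R.sum_le_opt n i0
      have h3 : (n : ℝ) * (1 / 2 - 1 / k) ≤ OPT (fun t => V t ω) n := by
        have h4 : (n : ℝ) * (1 / 2 - 1 / k) = n * (1 / 2) - n / k := by ring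
        rw [h4]
        linarith
      exact div_le_div₀ hnum hFB (by positivity) h3
  have hAi : Integrable (A.indicator fun _ => (1 : ℝ)) P := (integrable_const 1).indicator hAm
  have h1 := integral_mono_ae (integrable_ratio hV hlaw n) (by
    refine Integrable.add ?_ (hAi.const_mul _)
    refine Integrable.div_const ?_ _
    exact ((integrable_const _).add hBi).add (integrable_const _)) hae
  refine h1.trans ?_
  rw [integral_add (by
    refine Integrable.div_const ?_ _
    exact ((integrable_const _).add hBi).add (integrable_const _)) (hAi.const_mul _),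
    integral_div, integral_const_mul]
  have h2 : ∫ ω, ((1 / 2 + (4 * d + 3) / k) * n + B ω + Mx d k : ℝ) ∂P =
      (1 / 2 + (4 * d + 3) / k) * n + ∫ ω, B ω ∂P + Mx d k := by
    have hI1 : Integrable (fun ω => (1 / 2 + (4 * d + 3) / k) * n + B ω) P :=
      (integrable_const _).add hBi
    rw [integral_add hI1 (integrable_const _), integral_add (integrable_const _) hBi]
    simp
  rw [h2, integral_indicator_const _ hAm, smul_eq_mul, mul_one]
  have h3 : ((1 / 2 + (4 * d + 3) / k) * n + ∫ ω, B ω ∂P + Mx d k) / (n * (1 / 2 - 1 / k)) ≤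
      ((1 / 2 + (4 * d + 3) / k) * n + (n + 1) / k + Mx d k) / (n * (1 / 2 - 1 / k)) := by
    refine div_le_div_of_nonneg_right ?_ (by positivity)
    linarith
  have h4 : (2 * (d : ℝ) + 1) * P.real A ≤ (2 * d + 1) * (k ^ 2 / n) :=
    mul_le_mul_of_nonneg_left hAP (by positivity)
  refine (add_le_add h3 h4).trans (le_of_eq ?_)
  have hD' : (1 / 2 - 1 / k : ℝ) ≠ 0 := hD.ne'
  generalize (1 / 2 - 1 / k : ℝ) = D at hD'
  field_simp
  ring

/-- **First Fit is asymptotically optimal.** -/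
theorem main (hd : 1 ≤ d) (hV : ∀ t, Measurable (V t)) (hind : iIndepFun V P)
    (hlaw : ∀ t, P.map (V t) = volume.restrict (Set.Icc 0 1)) :
    Tendsto (fun n => ∫ ω, (FF (fun t => V t ω) n : ℝ) / OPT (fun t => V t ω) n ∂P)
      atTop (𝓝 1) := by
  rw [Metric.tendsto_atTop]
  intro ε hε
  obtain ⟨k, hk⟩ := exists_nat_gt (max 3 (12 * (4 * d + 5) / ε))
  have hk3 : (3 : ℝ) < k := (le_max_left _ _).trans_lt hk
  have hkε : 12 * (4 * d + 5) / ε < k := (le_max_right _ _).trans_lt hk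
  have hk3' : 3 ≤ k := by exact_mod_cast hk3.le
  have hk0 : (0 : ℝ) < k := by linarith
  have hD : (1 / 6 : ℝ) ≤ 1 / 2 - 1 / k := by
    have h1 : (1 : ℝ) / k ≤ 1 / 3 := one_div_le_one_div_of_le (by norm_num) hk3.le
    linarith
  have hA : (1 / 2 + (4 * d + 4) / k) / (1 / 2 - 1 / k) ≤ 1 + ε / 2 := by
    rw [div_le_iff₀ (by linarith)]
    have h1 : (4 * (d : ℝ) + 5) / k ≤ ε / 12 := by
      rw [div_le_iff₀ hk0]
      rw [div_lt_iff₀ hε] at hkε
      linarith
    have h2 : (4 * (d : ℝ) + 4) / k + 1 / k = (4 * d + 5) / k := by ring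
    nlinarith
  obtain ⟨C, hC⟩ : ∃ C : ℝ, C = (1 / k + Mx d k) / (1 / 2 - 1 / k) + (2 * d + 1) * k ^ 2 :=
    ⟨_, rfl⟩
  obtain ⟨N, hN⟩ := exists_nat_gt (2 * C / ε)
  refine ⟨max N 1, fun n hn => ?_⟩
  have hn1 : 1 ≤ n := (le_max_right _ _).trans hn
  have hnN : (N : ℝ) ≤ n := by exact_mod_cast (le_max_left _ _).trans hn
  have hn0 : (0 : ℝ) < n := by exact_mod_cast hn1
  have h1 := one_le_integral hV hlaw hn1
  have h2 := upper hd hV hind hlaw hk3' hn1
  rw [← hC] at h2
  have h3 : C / n < ε / 2 := by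
    rw [div_lt_iff₀ hn0]
    rw [div_lt_iff₀ hε] at hN
    nlinarith
  rw [Real.dist_eq, abs_of_nonneg (by linarith)]
  linarith

end Pool.Agent.R660.VP
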