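import Pool.Agent.R660.VP.Run

/-!
Measurability of the numbers of bins.
-/

namespace Pool.Agent.R660.VP

open Finset MeasureTheory

variable {d : ℕ}

theorem idx_eq_iff (x : Fin d → ℝ) (bs : List (Fin d → ℝ)) (m : ℕ) :
    idx x bs = m ↔ (∀ j < m, ¬ ∀ i, bs.getD j 0 i + x i ≤ 1) ∧
      (bs.length = m ∨ (m < bs.length ∧ ∀ i, bs.getD m 0 i + x i ≤ 1)) := by
  have hfit : ∀ bs : List (Fin d → ℝ), idx x bs < bs.length →
      ∀ i, bs.getD (idx x bs) 0 i + x i ≤ 1 := by
    intro bs
    induction bs with
    | nil => intro h; simp at h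
    | cons b bs ih =>
      unfold idx
      split_ifs with h1
      · intro _
        simpa using h1
      · intro h i
        rw [List.getD_cons_succ]
        exact ih (by simpa using h) i
  constructor
  · rintro rfl
    refine ⟨fun j hj => idx_nofit _ _ hj, ?_⟩
    rcases (idx_le x bs).lt_or_eq with h | h
    · exact Or.inr ⟨h, hfit bs h⟩
    · exact Or.inl h.symm
  · rintro ⟨h1, h2⟩
    rcases lt_trichotomy (idx x bs) m with h | h | h
    · exfalso
      have h3 : idx x bs < bs.length := by
        rcases h2 with h2 | h2
        · omega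
        · omega
      exact h1 _ h (hfit bs h3)
    · exact h
    · exfalso
      rcases h2 with h2 | h2
      · have := idx_le x bs
        omega
      · exact idx_nofit x bs h h2.2

variable {Ω : Type*} [MeasurableSpace Ω] {V : ℕ → Ω → Fin d → ℝ}

theorem meas_bins (hV : ∀ t, Measurable (V t)) (n : ℕ) :
    Measurable (fun ω => (binLoads (fun t => V t ω) n).length) ∧
      ∀ j i, Measurable fun ω => (binLoads (fun t => V t ω) n).getD j 0 i := by
  induction n with
  | zero =>
    refine ⟨measurable_const, fun j i => ?_⟩
    simp only [binLoads, List.getD_nil]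
    exact measurable_const
  | succ n ih =>
    obtain ⟨ih1, ih2⟩ := ih
    have hV' : ∀ i, Measurable fun ω => V n ω i := fun i => (measurable_pi_apply i).comp (hV n)
    have hfit : ∀ j, MeasurableSet {ω | ∀ i, (binLoads (fun t => V t ω) n).getD j 0 i +
        V n ω i ≤ 1} := by
      intro j
      rw [Set.ofPred_forall]
      exact MeasurableSet.iInter fun i => measurableSet_le ((ih2 j i).add (hV' i)) measurable_const
    have hidx : Measurable fun ω => idx (V n ω) (binLoads (fun t => V t ω) n) := by
      refine measurable_to_countable' fun m => ?_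
      have h1 : (fun ω => idx (V n ω) (binLoads (fun t => V t ω) n)) ⁻¹' {m} =
          (⋂ j ∈ Set.Iio m, {ω | ∀ i, (binLoads (fun t => V t ω) n).getD j 0 i +
            V n ω i ≤ 1}ᶜ) ∩ ({ω | (binLoads (fun t => V t ω) n).length = m} ∪
            ({ω | m < (binLoads (fun t => V t ω) n).length} ∩
              {ω | ∀ i, (binLoads (fun t => V t ω) n).getD m 0 i + V n ω i ≤ 1})) := by
        ext ω
        rw [Set.mem_preimage, Set.mem_singleton_iff, idx_eq_iff]
        simp only [Set.mem_inter_iff, Set.mem_iInter, Set.mem_Iio, Set.mem_compl_iff,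
          Set.mem_ofPred_eq, Set.mem_union]
      rw [h1]
      refine (MeasurableSet.biInter (Set.to_countable _) fun j _ => (hfit j).compl).inter
        (MeasurableSet.union ?_ (MeasurableSet.inter ?_ (hfit m)))
      · exact ih1 (measurableSet_singleton m)
      · exact ih1 (measurableSet_Ioi (a := m))
    constructor
    · have h1 : (fun ω => (binLoads (fun t => V t ω) (n + 1)).length) = fun ω =>
          if idx (V n ω) (binLoads (fun t => V t ω) n) = (binLoads (fun t => V t ω) n).length then
            (binLoads (fun t => V t ω) n).length + 1 else (binLoads (fun t => V t ω) n).length := by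
        funext ω
        exact place_length _ _
      rw [h1]
      exact Measurable.ite (measurableSet_eq_fun hidx ih1) (ih1.add_const 1) ih1
    · intro j i
      have h1 : (fun ω => (binLoads (fun t => V t ω) (n + 1)).getD j 0 i) = fun ω =>
          if j = idx (V n ω) (binLoads (fun t => V t ω) n) then
            (binLoads (fun t => V t ω) n).getD j 0 i + V n ω i
          else (binLoads (fun t => V t ω) n).getD j 0 i := by
        funext ω
        change (place (V n ω) (binLoads (fun t => V t ω) n)).getD j 0 i = _
        rw [place_getD]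
        split_ifs
        · rfl
        · rfl
      rw [h1]
      exact Measurable.ite (measurableSet_eq_fun measurable_const hidx)
        ((ih2 j i).add (hV' i)) (ih2 j i)

theorem meas_FF (hV : ∀ t, Measurable (V t)) (n : ℕ) :
    Measurable fun ω => FF (fun t => V t ω) n := (meas_bins hV n).1

theorem meas_OPT (hV : ∀ t, Measurable (V t)) (n : ℕ) :
    Measurable fun ω => OPT (fun t => V t ω) n := by
  have hV' : ∀ t i, Measurable fun ω => V t ω i := fun t i => (measurable_pi_apply i).comp (hV t)
  have hS : ∀ k : ℕ, MeasurableSet {ω | ∃ a : Fin n → Fin k, ∀ (b : Fin k) (i : Fin d),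
      ∑ t ∈ univ.filter (fun t => a t = b), V t ω i ≤ 1} := by
    intro k
    rw [Set.ofPred_exists]
    refine MeasurableSet.iUnion fun a => ?_
    rw [Set.ofPred_forall]
    refine MeasurableSet.iInter fun b => ?_
    rw [Set.ofPred_forall]
    refine MeasurableSet.iInter fun i => ?_
    refine measurableSet_le ?_ measurable_const
    exact Finset.measurable_sum _ fun t _ => hV' t i
  refine measurable_to_countable' fun m => ?_
  obtain ⟨S, hSd⟩ : ∃ S : ℕ → Set Ω, S = fun k => {ω | ∃ a : Fin n → Fin k,
      ∀ (b : Fin k) (i : Fin d), ∑ t ∈ univ.filter (fun t => a t = b), V t ω i ≤ 1} := ⟨_, rfl⟩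
  have h1 : (fun ω => OPT (fun t => V t ω) n) ⁻¹' {m} =
      (S m ∩ ⋂ k ∈ Set.Iio m, (S k)ᶜ) ∪ (if m = 0 then ⋂ k, (S k)ᶜ else ∅) := by
    ext ω
    rw [Set.mem_preimage, Set.mem_singleton_iff]
    have h2 : OPT (fun t => V t ω) n = sInf {k | ω ∈ S k} := by
      rw [hSd]
      rfl
    rw [h2]
    by_cases hne : {k | ω ∈ S k}.Nonempty
    · have h3 : ω ∉ (if m = 0 then ⋂ k, (S k)ᶜ else ∅) := by
        split_ifs
        · obtain ⟨k, hk⟩ := hne
          intro h4
          exact Set.mem_iInter.1 h4 k hk
        · exact Set.notMem_empty _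
      rw [Set.mem_union, or_iff_left h3, Set.mem_inter_iff]
      simp only [Set.mem_iInter, Set.mem_Iio, Set.mem_compl_iff]
      constructor
      · rintro rfl
        exact ⟨Nat.sInf_mem hne, fun k hk => Nat.notMem_of_lt_sInf hk⟩
      · rintro ⟨h4, h5⟩
        refine le_antisymm (Nat.sInf_le h4) ?_
        by_contra hcon
        exact h5 _ (not_le.1 hcon) (Nat.sInf_mem hne)
    · rw [Set.not_nonempty_iff_eq_empty] at hne
      have h3 : ∀ k, ω ∉ S k := by
        intro k hk
        have : k ∈ {k | ω ∈ S k} := hk
        rw [hne] at this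
        exact this
      rw [hne, Nat.sInf_empty, Set.mem_union]
      constructor
      · rintro rfl
        right
        rw [if_pos rfl]
        exact Set.mem_iInter.2 h3
      · rintro (h4 | h4)
        · exact absurd h4.1 (h3 m)
        · split_ifs at h4 with h5
          · exact h5.symm
          · exact absurd h4 (Set.notMem_empty _)
  rw [h1]
  have hS' : ∀ k, MeasurableSet (S k) := by
    intro k
    rw [hSd]
    exact hS k
  refine ((hS' m).inter (MeasurableSet.biInter (Set.to_countable _) fun k _ =>
    (hS' k).compl)).union ?_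
  split_ifs
  · exact MeasurableSet.iInter fun k => (hS' k).compl
  · exact MeasurableSet.empty

end Pool.Agent.R660.VP
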