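import Pool.Agent.R660.VP.Sum
import Pool.Agent.R660.VP.Meas

/-!
The probability of the exceptional times.
-/

namespace Pool.Agent.R660.VP

open Finset MeasureTheory ProbabilityTheory

variable {d : ℕ}

/-- the uniform distribution on the unit interval -/
noncomputable def U1 : Measure ℝ := (volume : Measure ℝ).restrict (Set.Icc 0 1)

instance : IsProbabilityMeasure U1 := ⟨by
  unfold U1
  rw [Measure.restrict_apply_univ, Real.volume_Icc]
  norm_num⟩

theorem law_pi (d : ℕ) : (volume : Measure (Fin d → ℝ)).restrict (Set.Icc 0 1) =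
    Measure.pi fun _ => U1 := by
  have h : (Set.Icc 0 1 : Set (Fin d → ℝ)) = Set.pi Set.univ fun _ => Set.Icc (0 : ℝ) 1 := by
    rw [Set.pi_univ_Icc]
    rfl
  rw [h, volume_pi, Measure.restrict_pi_pi]
  rfl

theorem U1_cell {k j : ℕ} (hk : 1 ≤ k) (hj : j < k) :
    U1 {y : ℝ | min ⌊(k : ℝ) * y⌋₊ (k - 1) = j} = ENNReal.ofReal (1 / k) := by
  have hk0 : (0 : ℝ) < k := by exact_mod_cast hk
  have hm : MeasurableSet {y : ℝ | min ⌊(k : ℝ) * y⌋₊ (k - 1) = j} := by
    have h1 : Measurable fun y : ℝ => min ⌊(k : ℝ) * y⌋₊ (k - 1) :=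
      (Nat.measurable_floor.comp (measurable_const_mul _)).min measurable_const
    exact h1 (measurableSet_singleton j)
  unfold U1
  rw [Measure.restrict_apply hm]
  by_cases hj' : j = k - 1
  · have h1 : {y : ℝ | min ⌊(k : ℝ) * y⌋₊ (k - 1) = j} ∩ Set.Icc 0 1 =
        Set.Icc ((j : ℝ) / k) 1 := by
      ext y
      rw [Set.mem_inter_iff, Set.mem_ofPred_eq, Set.mem_Icc, Set.mem_Icc, div_le_iff₀ hk0]
      constructor
      · rintro ⟨h2, h3, h4⟩
        have h5 : j ≤ ⌊(k : ℝ) * y⌋₊ := by
          rw [← h2]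
          exact min_le_left _ _
        rw [Nat.le_floor_iff (by positivity)] at h5
        exact ⟨by linarith, h4⟩
      · rintro ⟨h2, h3⟩
        have h4 : 0 ≤ y := by
          have : (0 : ℝ) ≤ j := Nat.cast_nonneg j
          by_contra hcon
          push Not at hcon
          nlinarith
        refine ⟨?_, h4, h3⟩
        rw [← hj']
        refine min_eq_right ?_
        rw [Nat.le_floor_iff (by positivity)]
        linarith
    rw [h1, Real.volume_Icc]
    congr 1
    have h2 : (j : ℝ) + 1 = k := by exact_mod_cast (by omega : j + 1 = k)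
    rw [← h2] at hk0 ⊢
    field_simp
    ring
  · have h1 : {y : ℝ | min ⌊(k : ℝ) * y⌋₊ (k - 1) = j} ∩ Set.Icc 0 1 =
        Set.Ico ((j : ℝ) / k) ((j + 1) / k) := by
      ext y
      rw [Set.mem_inter_iff, Set.mem_ofPred_eq, Set.mem_Icc, Set.mem_Ico, div_le_iff₀ hk0,
        lt_div_iff₀ hk0]
      have hj1 : (j : ℝ) + 1 ≤ k := by exact_mod_cast hj
      constructor
      · rintro ⟨h2, h3, h4⟩
        have h5 : ⌊(k : ℝ) * y⌋₊ = j := by
          rcases le_total ⌊(k : ℝ) * y⌋₊ (k - 1) with h | h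
          · rw [min_eq_left h] at h2
            exact h2
          · rw [min_eq_right h] at h2
            omega
        rw [Nat.floor_eq_iff (by positivity)] at h5
        exact ⟨by linarith [h5.1], by linarith [h5.2]⟩
      · rintro ⟨h2, h3⟩
        have h4 : 0 ≤ y := by
          have : (0 : ℝ) ≤ j := Nat.cast_nonneg j
          by_contra hcon
          push Not at hcon
          nlinarith
        have h5 : ⌊(k : ℝ) * y⌋₊ = j := by
          rw [Nat.floor_eq_iff (by positivity)]
          exact ⟨by linarith, by linarith⟩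
        refine ⟨?_, h4, ?_⟩
        · rw [h5]
          exact min_eq_left (by omega)
        · by_contra hcon
          push Not at hcon
          nlinarith
    rw [h1, Real.volume_Ico]
    congr 1
    ring

variable {Ω : Type*} [MeasurableSpace Ω] {P : Measure Ω} [IsProbabilityMeasure P]
  {V : ℕ → Ω → Fin d → ℝ}

theorem meas_cell (k : ℕ) : Measurable (cell (d := d) k) := by
  refine measurable_pi_lambda _ fun i => ?_
  unfold cell
  exact (Nat.measurable_floor.comp ((measurable_pi_apply i).const_mul _)).min measurable_const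

omit [IsProbabilityMeasure P] in
theorem prob_cell {X : Ω → Fin d → ℝ} (hX : Measurable X)
    (hlaw : P.map X = volume.restrict (Set.Icc 0 1)) {k : ℕ} (hk : 1 ≤ k) {c : Fin d → ℕ}
    (hc : c ∈ cells d k) : P {ω | cell k (X ω) = c} = ENNReal.ofReal (1 / k ^ d) := by
  have hs : MeasurableSet {x : Fin d → ℝ | cell k x = c} :=
    meas_cell k (measurableSet_singleton c)
  have h1 : P {ω | cell k (X ω) = c} = P.map X {x | cell k x = c} := by
    rw [Measure.map_apply hX hs]
    rfl
  rw [h1, hlaw, law_pi]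
  have h2 : {x : Fin d → ℝ | cell k x = c} =
      Set.pi Set.univ fun i => {y : ℝ | min ⌊(k : ℝ) * y⌋₊ (k - 1) = c i} := by
    ext x
    rw [Set.mem_ofPred_eq, Set.mem_univ_pi]
    exact funext_iff
  rw [h2, Measure.pi_pi]
  rw [mem_cells] at hc
  rw [prod_congr rfl fun i _ => U1_cell hk (hc i), prod_const, card_univ, Fintype.card_fin,
    ← ENNReal.ofReal_pow (by positivity)]
  congr 1
  rw [div_pow, one_pow]

omit [IsProbabilityMeasure P] in
theorem mean_coord {X : Ω → Fin d → ℝ} (hX : Measurable X)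
    (hlaw : P.map X = volume.restrict (Set.Icc 0 1)) (i : Fin d) : ∫ ω, X ω i ∂P = 1 / 2 := by
  have h1 : ∫ ω, X ω i ∂P = ∫ x, x i ∂(P.map X) := by
    rw [integral_map hX.aemeasurable]
    exact (measurable_pi_apply i).aestronglyMeasurable
  rw [h1, hlaw, law_pi]
  have h2 := (measurePreserving_eval (fun _ : Fin d => U1) i)
  have h3 : ∫ x : Fin d → ℝ, x i ∂(Measure.pi fun _ => U1) = ∫ y, y ∂U1 := by
    have h4 : ∫ y, y ∂(Measure.map (Function.eval i) (Measure.pi fun _ : Fin d => U1)) =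
        ∫ x : Fin d → ℝ, x i ∂(Measure.pi fun _ => U1) :=
      integral_map h2.measurable.aemeasurable measurable_id.aestronglyMeasurable
    rw [h2.map_eq] at h4
    exact h4.symm
  rw [h3]
  unfold U1
  rw [integral_Icc_eq_integral_Ioc, ← intervalIntegral.integral_of_le zero_le_one, integral_id]
  norm_num

omit [IsProbabilityMeasure P] in
theorem ae_mem {X : Ω → Fin d → ℝ} (hX : Measurable X)
    (hlaw : P.map X = volume.restrict (Set.Icc 0 1)) :
    ∀ᵐ ω ∂P, (∀ i, 0 ≤ X ω i) ∧ ∀ i, X ω i ≤ 1 := by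
  have h1 : ∀ᵐ x ∂(P.map X), x ∈ Set.Icc (0 : Fin d → ℝ) 1 := by
    rw [hlaw]
    exact ae_restrict_mem measurableSet_Icc
  have h2 := ae_of_ae_map hX.aemeasurable h1
  filter_upwards [h2] with ω hω
  exact ⟨fun i => hω.1 i, fun i => hω.2 i⟩

/-- Chebyshev's inequality -/
theorem conc {Y : ℕ → Ω → ℝ} (hm : ∀ t, Measurable (Y t)) (hY : ∀ t, ∀ᵐ ω ∂P, |Y t ω| ≤ 1)
    (hind : Pairwise fun s t => IndepFun (Y s) (Y t) P) {q : ℝ} (hE : ∀ t, ∫ ω, Y t ω ∂P = q)
    (s : Finset ℕ) {θ : ℝ} (hθ : 0 < θ) :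
    P {ω | θ ≤ |∑ t ∈ s, Y t ω - s.card * q|} ≤ ENNReal.ofReal (s.card / θ ^ 2) := by
  have hL : ∀ t, MemLp (Y t) 2 P := fun t =>
    MemLp.of_bound (hm t).aestronglyMeasurable 1 (by simpa [Real.norm_eq_abs] using hY t)
  have hI : ∀ t, Integrable (Y t) P := fun t => (hL t).integrable (by norm_num)
  have hLs : MemLp (∑ t ∈ s, Y t) 2 P := memLp_finsetSum' s fun t _ => hL t
  have h1 := meas_ge_le_variance_div_sq hLs hθ
  have hmean : ∫ ω, (∑ t ∈ s, Y t) ω ∂P = s.card * q := by
    simp only [Finset.sum_apply]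
    rw [integral_finsetSum _ fun t _ => hI t, sum_congr rfl fun t _ => hE t, sum_const,
      nsmul_eq_mul]
  have hvar : variance (∑ t ∈ s, Y t) P ≤ s.card := by
    rw [IndepFun.variance_sum (fun t _ => hL t) fun i _ j _ hij => hind hij]
    have h2 : ∀ t ∈ s, variance (Y t) P ≤ 1 := by
      intro t _
      refine (variance_le_expectation_sq (hm t).aestronglyMeasurable).trans ?_
      have h3 : ∫ ω, (Y t ^ 2) ω ∂P ≤ ∫ _, (1 : ℝ) ∂P := by
        refine integral_mono_ae ((hL t).integrable_sq) (integrable_const 1) ?_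
        filter_upwards [hY t] with ω hω
        rw [Pi.pow_apply, ← sq_abs]
        exact pow_le_one₀ (abs_nonneg _) hω
      simpa using h3
    refine (sum_le_sum h2).trans (le_of_eq ?_)
    rw [sum_const, nsmul_eq_mul, mul_one]
  rw [hmean] at h1
  simp only [Finset.sum_apply] at h1
  refine h1.trans (ENNReal.ofReal_le_ofReal ?_)
  exact div_le_div_of_nonneg_right hvar (by positivity)

theorem meas_cnt (hV : ∀ t, Measurable (V t)) (k s T : ℕ) (c : Fin d → ℕ) :
    Measurable fun ω => (cnt (fun t => V t ω) k s T c : ℝ) := by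
  have h1 : (fun ω => (cnt (fun t => V t ω) k s T c : ℝ)) = fun ω =>
      ∑ t ∈ Ico s T, Set.indicator {ω | cell k (V t ω) = c} (fun _ => (1 : ℝ)) ω := by
    funext ω
    unfold cnt
    rw [card_filter]
    push_cast
    refine sum_congr rfl fun t _ => ?_
    by_cases h : cell k (V t ω) = c
    · rw [if_pos h, Set.indicator_of_mem (by exact h)]
    · rw [if_neg h, Set.indicator_of_notMem (by exact h)]
  rw [h1]
  exact Finset.measurable_sum _ fun t _ => measurable_const.indicator
    (((meas_cell k).comp (hV t)) (measurableSet_singleton c))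

theorem cnt_conc (hV : ∀ t, Measurable (V t)) (hind : iIndepFun V P)
    (hlaw : ∀ t, P.map (V t) = volume.restrict (Set.Icc 0 1)) {k : ℕ} (hk : 1 ≤ k)
    {c : Fin d → ℕ} (hc : c ∈ cells d k) {m T : ℕ} (hmT : m ≤ T) {θ : ℝ} (hθ : 0 < θ) :
    P {ω | θ ≤ |(cnt (fun t => V t ω) k (T - m) T c : ℝ) - m / k ^ d|} ≤
      ENNReal.ofReal (m / θ ^ 2) := by
  have hk0 : (0 : ℝ) < k := by exact_mod_cast hk
  obtain ⟨g, hg⟩ : ∃ g : (Fin d → ℝ) → ℝ,
    g = Set.indicator {x | cell k x = c} (fun _ => (1 : ℝ)) := ⟨_, rfl⟩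
  have hgm : Measurable g := by
    rw [hg]
    exact measurable_const.indicator (meas_cell k (measurableSet_singleton c))
  have h1 := conc (P := P) (Y := fun t ω => g (V t ω)) (fun t => hgm.comp (hV t))
    (fun t => ae_of_all _ fun ω => by
      rw [hg]
      by_cases h : cell k (V t ω) = c
      · rw [Set.indicator_of_mem (by exact h)]; simp
      · rw [Set.indicator_of_notMem (by exact h)]; simp)
    (fun s t hst => (hind.indepFun hst).comp hgm hgm) (q := 1 / k ^ d) (fun t => by
      have h2 : (fun ω => g (V t ω)) = Set.indicator {ω | cell k (V t ω) = c}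
          (fun _ => (1 : ℝ)) := by
        funext ω
        rw [hg]
        rfl
      have hs : MeasurableSet {ω | cell k (V t ω) = c} :=
        ((meas_cell k).comp (hV t)) (measurableSet_singleton c)
      rw [h2, integral_indicator_const _ hs, smul_eq_mul, mul_one,
        Measure.real, prob_cell (hV t) (hlaw t) hk hc, ENNReal.toReal_ofReal (by positivity)])
    (Ico (T - m) T) hθ
  have h3 : (Ico (T - m) T).card = m := by
    rw [Nat.card_Ico]
    omega
  rw [h3] at h1
  have h4 : {ω | θ ≤ |(cnt (fun t => V t ω) k (T - m) T c : ℝ) - m / k ^ d|} =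
      {ω | θ ≤ |∑ t ∈ Ico (T - m) T, g (V t ω) - m * (1 / k ^ d)|} := by
    ext ω
    rw [Set.mem_ofPred_eq, Set.mem_ofPred_eq]
    have h5 : (cnt (fun t => V t ω) k (T - m) T c : ℝ) = ∑ t ∈ Ico (T - m) T, g (V t ω) := by
      unfold cnt
      rw [card_filter]
      push_cast
      refine sum_congr rfl fun t _ => ?_
      rw [hg]
      by_cases h : cell k (V t ω) = c
      · rw [if_pos h, Set.indicator_of_mem (by exact h)]
      · rw [if_neg h, Set.indicator_of_notMem (by exact h)]
    rw [h5, mul_one_div]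
  rw [h4]
  exact h1

/-- the exceptional times have a small probability -/
theorem prob_bad (hV : ∀ t, Measurable (V t)) (hind : iIndepFun V P)
    (hlaw : ∀ t, P.map (V t) = volume.restrict (Set.Icc 0 1)) {k : ℕ} (hk : 3 ≤ k) {T : ℕ}
    (hT : Mx d k ≤ T) : P {ω | ¬ Conc (fun t => V t ω) k T} ≤ ENNReal.ofReal (1 / k) := by
  have hkr : (3 : ℝ) ≤ k := by exact_mod_cast hk
  have hk0 : (0 : ℝ) < k := by linarith
  have h1 : {ω | ¬ Conc (fun t => V t ω) k T} ⊆
      ⋃ l ∈ range (k ^ d + 1), ⋃ c ∈ cells d k,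
        {ω | (k : ℝ) ^ (lz d + l + 1) / k ^ (d + 1) ≤
          |(cnt (fun t => V t ω) k (T - k ^ (lz d + l + 1)) T c : ℝ) -
            ((k ^ (lz d + l + 1) : ℕ) : ℝ) / k ^ d|} := by
    intro ω hω
    rw [Set.mem_ofPred_eq] at hω
    unfold Conc at hω
    push Not at hω
    obtain ⟨l, hl, c, hc, h2⟩ := hω
    simp only [Set.mem_iUnion]
    refine ⟨l, mem_range.2 hl, c, hc, ?_⟩
    rw [Set.mem_ofPred_eq]
    push_cast
    exact h2.le
  refine (measure_mono h1).trans ((measure_biUnion_finset_le _ _).trans ?_)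
  have h2 : ∀ l ∈ range (k ^ d + 1), P (⋃ c ∈ cells d k,
        {ω | (k : ℝ) ^ (lz d + l + 1) / k ^ (d + 1) ≤
          |(cnt (fun t => V t ω) k (T - k ^ (lz d + l + 1)) T c : ℝ) -
            ((k ^ (lz d + l + 1) : ℕ) : ℝ) / k ^ d|}) ≤
      ENNReal.ofReal (1 / k ^ (d + 2)) := by
    intro l hl
    rw [mem_range] at hl
    refine (measure_biUnion_finset_le _ _).trans ?_
    have h3 : ∀ c ∈ cells d k, P {ω | (k : ℝ) ^ (lz d + l + 1) / k ^ (d + 1) ≤
          |(cnt (fun t => V t ω) k (T - k ^ (lz d + l + 1)) T c : ℝ) -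
            ((k ^ (lz d + l + 1) : ℕ) : ℝ) / k ^ d|} ≤ ENNReal.ofReal (1 / k ^ (2 * d + 2)) := by
      intro c hc
      refine (cnt_conc hV hind hlaw (by omega) hc ?_ (by positivity)).trans
        (ENNReal.ofReal_le_ofReal ?_)
      · refine le_trans ?_ hT
        exact Nat.pow_le_pow_right (by omega) (by omega)
      · push_cast
        have h4 : (k : ℝ) ^ (lz d + l + 1) / ((k : ℝ) ^ (lz d + l + 1) / k ^ (d + 1)) ^ 2 =
            k ^ (2 * d + 2) / k ^ (lz d + l + 1) := by
          field_simp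
          ring
        rw [h4, div_le_div_iff₀ (by positivity) (by positivity), one_mul, ← pow_add]
        exact pow_le_pow_right₀ (by linarith) (by unfold lz; omega)
    refine (sum_le_sum h3).trans ?_
    rw [sum_const, card_cells, nsmul_eq_mul, ← ENNReal.ofReal_natCast,
      ← ENNReal.ofReal_mul (by positivity)]
    refine ENNReal.ofReal_le_ofReal (le_of_eq ?_)
    push_cast
    rw [show 2 * d + 2 = d + (d + 2) by ring, pow_add]
    field_simp
  refine (sum_le_sum h2).trans ?_
  rw [sum_const, card_range, nsmul_eq_mul, ← ENNReal.ofReal_natCast,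
    ← ENNReal.ofReal_mul (by positivity)]
  refine ENNReal.ofReal_le_ofReal ?_
  push_cast
  rw [mul_one_div, div_le_div_iff₀ (by positivity) hk0, one_mul]
  have h5 : (1 : ℝ) ≤ k ^ d := one_le_pow₀ (by linarith)
  have h6 : (k : ℝ) ^ (d + 2) = k ^ d * (k * k) := by ring
  rw [h6]
  calc ((k : ℝ) ^ d + 1) * k ≤ (k ^ d + k ^ d) * k :=
        mul_le_mul_of_nonneg_right (by linarith) hk0.le
    _ = k ^ d * (2 * k) := by ring
    _ ≤ k ^ d * (k * k) := by
      refine mul_le_mul_of_nonneg_left ?_ (by positivity)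
      nlinarith

end Pool.Agent.R660.VP
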