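import Pool.Agent.R660.VP.Defs

/-!
The run of First Fit as an assignment of the items to the bins.
-/

namespace Pool.Agent.R660.VP

open Finset

variable {d : ℕ}

open scoped Classical in
/-- the index of the bin into which `x` is placed -/
noncomputable def idx (x : Fin d → ℝ) : List (Fin d → ℝ) → ℕ
  | [] => 0
  | b :: bs => if ∀ i, b i + x i ≤ 1 then 0 else idx x bs + 1

theorem idx_le (x : Fin d → ℝ) (bs : List (Fin d → ℝ)) : idx x bs ≤ bs.length := by
  induction bs with
  | nil => simp [idx]
  | cons b bs ih =>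
    unfold idx
    split_ifs
    · omega
    · simp only [List.length_cons]; omega

theorem place_length (x : Fin d → ℝ) (bs : List (Fin d → ℝ)) :
    (place x bs).length = if idx x bs = bs.length then bs.length + 1 else bs.length := by
  induction bs with
  | nil => simp [idx, place]
  | cons b bs ih =>
    unfold idx place
    split_ifs with h1 h2 h3
    · simp at h2
    · simp
    · simp only [List.length_cons] at h3 ⊢
      rw [ih, if_pos (by omega)]
    · simp only [List.length_cons] at h3 ⊢
      rw [ih, if_neg (by omega)]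

theorem place_getD (x : Fin d → ℝ) (bs : List (Fin d → ℝ)) (j : ℕ) :
    (place x bs).getD j 0 = if j = idx x bs then bs.getD j 0 + x else bs.getD j 0 := by
  induction bs generalizing j with
  | nil =>
    unfold idx place
    rcases j with _ | j
    · simp
    · simp
  | cons b bs ih =>
    unfold idx place
    split_ifs with h1 h2 h3
    · subst h2; simp
    · rcases j with _ | j
      · exact absurd rfl h2
      · simp
    · subst h3
      rw [List.getD_cons_succ, List.getD_cons_succ, ih, if_pos rfl]
    · rcases j with _ | j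
      · simp
      · rw [List.getD_cons_succ, List.getD_cons_succ, ih, if_neg (by omega)]

theorem idx_fit {x : Fin d → ℝ} (hx : ∀ i, x i ≤ 1) (bs : List (Fin d → ℝ)) (i : Fin d) :
    bs.getD (idx x bs) 0 i + x i ≤ 1 := by
  induction bs with
  | nil => simpa [idx] using hx i
  | cons b bs ih =>
    unfold idx
    split_ifs with h1
    · simpa using h1 i
    · rw [List.getD_cons_succ]; exact ih

theorem idx_nofit (x : Fin d → ℝ) (bs : List (Fin d → ℝ)) {j : ℕ} (hj : j < idx x bs) :
    ¬ ∀ i, bs.getD j 0 i + x i ≤ 1 := by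
  induction bs generalizing j with
  | nil => simp [idx] at hj
  | cons b bs ih =>
    unfold idx at hj
    split_ifs at hj with h1
    · omega
    · rcases j with _ | j
      · simpa using h1
      · rw [List.getD_cons_succ]
        exact ih (by omega)

/-- An assignment of the items to the bins which follows First Fit: `a t` is the bin of the item
`v t`, `F t` is the number of the bins before the item `v t`, `ℓ t j` is the load of the bin `j`. -/
structure Run (v : ℕ → Fin d → ℝ) (a F : ℕ → ℕ) (ℓ : ℕ → ℕ → Fin d → ℝ) : Prop where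
  v0 : ∀ t i, 0 ≤ v t i
  v1 : ∀ t i, v t i ≤ 1
  F0 : F 0 = 0
  Fs : ∀ t, F (t + 1) = if a t = F t then F t + 1 else F t
  aF : ∀ t, a t ≤ F t
  ls : ∀ t j i, ℓ t j i = ∑ s ∈ (range t).filter (fun s => a s = j), v s i
  fit : ∀ t i, ℓ t (a t) i + v t i ≤ 1
  nofit : ∀ t j, j < a t → ¬ ∀ i, ℓ t j i + v t i ≤ 1

theorem exists_run {v : ℕ → Fin d → ℝ} (h0 : ∀ t i, 0 ≤ v t i) (h1 : ∀ t i, v t i ≤ 1) :
    ∃ a ℓ, Run v a (FF v) ℓ := by
  refine ⟨fun t => idx (v t) (binLoads v t), fun t j => (binLoads v t).getD j 0,
    h0, h1, rfl, ?_, ?_, ?_, ?_, ?_⟩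
  · intro t
    exact place_length _ _
  · intro t
    exact idx_le _ _
  · intro t j i
    induction t with
    | zero => simp [binLoads]
    | succ t ih =>
      rw [range_add_one, filter_insert]
      change (place (v t) (binLoads v t)).getD j 0 i = _
      rw [place_getD]
      by_cases hj : idx (v t) (binLoads v t) = j
      · rw [if_pos hj.symm, if_pos hj, sum_insert (by simp), Pi.add_apply, ih, add_comm]
      · rw [if_neg (Ne.symm hj), if_neg hj, ih]
  · intro t i
    exact idx_fit (h1 t) _ i
  · intro t j hj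
    exact idx_nofit _ _ hj

namespace Run

variable {v : ℕ → Fin d → ℝ} {a F : ℕ → ℕ} {ℓ : ℕ → ℕ → Fin d → ℝ} (R : Run v a F ℓ)

include R

theorem F_le_succ (t : ℕ) : F t ≤ F (t + 1) := by
  rw [R.Fs]; split_ifs <;> omega

theorem F_mono : Monotone F := monotone_nat_of_le_succ R.F_le_succ

theorem F_succ_le (t : ℕ) : F (t + 1) ≤ F t + 1 := by
  rw [R.Fs]; split_ifs <;> omega

theorem F_le (t : ℕ) : F t ≤ t := by
  induction t with
  | zero => rw [R.F0]
  | succ t ih => have := R.F_succ_le t; omega

theorem a_lt (t : ℕ) : a t < F (t + 1) := by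
  rw [R.Fs]
  have := R.aF t
  split_ifs <;> omega

theorem a_lt_of {t T : ℕ} (h : t < T) : a t < F T :=
  (R.a_lt t).trans_le (R.F_mono h)

theorem le_of_a {t t0 : ℕ} (h : F t0 ≤ a t) : t0 ≤ t := by
  by_contra hcon
  have := R.a_lt_of (not_le.1 hcon)
  omega

theorem exists_open {j T : ℕ} (h : j < F T) : ∃ t < T, a t = j ∧ F t = j := by
  induction T with
  | zero => rw [R.F0] at h; omega
  | succ T ih =>
    by_cases hj : j < F T
    · obtain ⟨t, ht, h1⟩ := ih hj
      exact ⟨t, by omega, h1⟩
    · refine ⟨T, by omega, ?_⟩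
      have h1 := R.Fs T
      split_ifs at h1 with h2
      · omega
      · omega

theorem l_mono {t T j : ℕ} (h : t ≤ T) (i : Fin d) : ℓ t j i ≤ ℓ T j i := by
  rw [R.ls, R.ls]
  refine sum_le_sum_of_subset_of_nonneg ?_ fun s _ _ => R.v0 s i
  intro s hs
  rw [mem_filter, mem_range] at hs ⊢
  omega

end Run

end Pool.Agent.R660.VP
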