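import Pool.Agent.R660.VP.Det

/-!
The bound for the number of bins of First Fit in terms of the number of the exceptional times.
-/

namespace Pool.Agent.R660.VP

open Finset

variable {d : ℕ}

theorem card_bad (d k : ℕ) (hk : 3 ≤ k) :
    ((cells d k).filter (fun c => ¬ ∀ i, c i + 3 ≤ k)).card * k ≤ 2 * d * k ^ d := by
  classical
  have h1 : (cells d k).filter (fun c => ¬ ∀ i, c i + 3 ≤ k) ⊆
      univ.biUnion fun i : Fin d => Fintype.piFinset fun j => if j = i then Ico (k - 2) k
        else range k := by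
    intro c hc
    rw [mem_filter, mem_cells] at hc
    obtain ⟨h2, h3⟩ := hc
    push Not at h3
    obtain ⟨i, hi⟩ := h3
    rw [mem_biUnion]
    refine ⟨i, mem_univ _, ?_⟩
    rw [Fintype.mem_piFinset]
    intro j
    split_ifs with hj
    · subst hj
      rw [mem_Ico]
      have := h2 j
      omega
    · rw [mem_range]
      exact h2 j
  have h2 : ∀ i : Fin d, (Fintype.piFinset fun j => if j = i then Ico (k - 2) k
        else range k).card * k = 2 * k ^ d := by
    intro i
    rw [Fintype.card_piFinset, ← mul_prod_erase univ _ (mem_univ i)]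
    rw [if_pos rfl, Nat.card_Ico]
    have h3 : ∏ x ∈ univ.erase i, (if x = i then Ico (k - 2) k else range k).card =
        k ^ (d - 1) := by
      rw [prod_congr rfl (g := fun _ => k), prod_const, card_erase_of_mem (mem_univ i), card_univ,
        Fintype.card_fin]
      intro x hx
      rw [if_neg (ne_of_mem_erase hx), card_range]
    rw [h3, show k - (k - 2) = 2 by omega, mul_assoc, ← pow_succ]
    congr 2
    have := i.2
    omega
  calc ((cells d k).filter (fun c => ¬ ∀ i, c i + 3 ≤ k)).card * k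
      ≤ (∑ i : Fin d, (Fintype.piFinset fun j => if j = i then Ico (k - 2) k
        else range k).card) * k := Nat.mul_le_mul_right _ ((card_le_card h1).trans card_biUnion_le)
    _ = 2 * d * k ^ d := by
      rw [sum_mul, sum_congr rfl fun i _ => h2 i, sum_const, card_univ, Fintype.card_fin,
        smul_eq_mul]
      ring

/-- the smallest scale -/
def lz (d : ℕ) : ℕ := 4 * d + 3

/-- the largest scale -/
def Mx (d k : ℕ) : ℕ := k ^ (lz d + (k ^ d + 1))

/-- the numbers of the items of the cells in the windows which end at `T` are almost equal -/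
def Conc (v : ℕ → Fin d → ℝ) (k T : ℕ) : Prop :=
  ∀ l < k ^ d + 1, ∀ c ∈ cells d k,
    |(cnt v k (T - k ^ (lz d + l + 1)) T c : ℝ) - (k : ℝ) ^ (lz d + l + 1) / k ^ d| ≤
      (k : ℝ) ^ (lz d + l + 1) / k ^ (d + 1)

namespace Run

variable {v : ℕ → Fin d → ℝ} {a F : ℕ → ℕ} {ℓ : ℕ → ℕ → Fin d → ℝ} (R : Run v a F ℓ)

include R

theorem step {k T : ℕ} (hk : 3 ≤ k) (hT : Mx d k ≤ T) (hC : Conc v k T) :
    ∃ m, 1 ≤ m ∧ m ≤ T ∧ (F T : ℝ) ≤ F (T - m) + (1 / 2 + (4 * d + 3) / k) * m := by
  classical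
  obtain ⟨l, hl, hgood⟩ := R.exists_scale (k := k) (K := k) (l0 := lz d) (T := T) (by omega)
  obtain ⟨m, hm⟩ : ∃ m, m = k ^ (lz d + l + 1) := ⟨_, rfl⟩
  obtain ⟨m', hm'⟩ : ∃ m', m' = k ^ (lz d + l) := ⟨_, rfl⟩
  have hmm : m = m' * k := by rw [hm, hm', pow_succ]
  have hm1 : 1 ≤ m := by rw [hm]; exact Nat.one_le_pow _ _ (by omega)
  have hmT : m ≤ T := by
    refine le_trans ?_ hT
    rw [hm]
    exact Nat.pow_le_pow_right (by omega) (by omega)
  have hm'm : m' ≤ m := by
    rw [hmm]
    exact Nat.le_mul_of_pos_right _ (by omega)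
  rw [← hm, ← hm'] at hgood
  obtain ⟨G, hG, hw⟩ := R.window hk (show T - m ≤ T - m' by omega) (show T - m' ≤ T by omega) hgood
  refine ⟨m, hm1, hmT, ?_⟩
  have hC' : ∀ c ∈ cells d k, |(cnt v k (T - m) T c : ℝ) - (m : ℝ) / k ^ d| ≤
      (m : ℝ) / k ^ (d + 1) := by
    intro c hc
    have h1 := hC l hl c hc
    rw [← hm] at h1
    have h2 : ((k : ℝ) ^ (lz d + l + 1)) = m := by rw [hm]; push_cast; rfl
    rw [h2] at h1
    exact h1
  have hkr : (3 : ℝ) ≤ k := by exact_mod_cast hk
  have hk0 : (0 : ℝ) < k := by linarith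
  have hkd : (0 : ℝ) < (k : ℝ) ^ d := pow_pos hk0 d
  have hm0 : (0 : ℝ) < m := by exact_mod_cast hm1
  -- the sums over `G`
  have hGc : (G.card : ℝ) ≤ (k : ℝ) ^ d := by
    have h1 := (card_le_card hG).trans (card_filter_le _ _)
    rw [card_cells] at h1
    exact_mod_cast h1
  have hsum : ((∑ c ∈ G, cnt v k (T - m) T c : ℕ) : ℝ) ≤
      ((∑ c ∈ G, cnt v k (T - m) T (fun i => k - 3 - c i) : ℕ) : ℝ) + 2 * (m / k) := by
    have h1 : ∀ c ∈ G, (cnt v k (T - m) T c : ℝ) ≤
        (cnt v k (T - m) T (fun i => k - 3 - c i) : ℝ) + 2 * ((m : ℝ) / k ^ (d + 1)) := by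
      intro c hc
      have h2 := mem_filter.1 (hG hc)
      have h3 := (abs_le.1 (hC' c h2.1)).2
      have h4 := (abs_le.1 (hC' (fun i => k - 3 - c i) (by
        rw [mem_cells]
        intro i
        omega))).1
      linarith
    have h2 := sum_le_sum h1
    rw [sum_add_distrib, sum_const, nsmul_eq_mul] at h2
    push_cast
    refine h2.trans ?_
    have h3 : (G.card : ℝ) * (2 * ((m : ℝ) / k ^ (d + 1))) ≤ 2 * (m / k) := by
      have h4 : 2 * ((m : ℝ) / k) = k ^ d * (2 * ((m : ℝ) / k ^ (d + 1))) := by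
        rw [pow_succ]
        field_simp
      rw [h4]
      exact mul_le_mul_of_nonneg_right hGc (by positivity)
    linarith
  have hbad : ((∑ c ∈ (cells d k).filter (fun c => ¬ ∀ i, c i + 3 ≤ k),
      cnt v k (T - m) T c : ℕ) : ℝ) ≤ 4 * d / k * m := by
    have h1 : ∀ c ∈ (cells d k).filter (fun c => ¬ ∀ i, c i + 3 ≤ k),
        (cnt v k (T - m) T c : ℝ) ≤ 2 * ((m : ℝ) / k ^ d) := by
      intro c hc
      have h3 := (abs_le.1 (hC' c (mem_filter.1 hc).1)).2
      have h4 : (m : ℝ) / k ^ (d + 1) ≤ m / k ^ d := by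
        refine div_le_div_of_nonneg_left hm0.le hkd ?_
        exact pow_le_pow_right₀ (by linarith) (by omega)
      linarith
    have h2 := sum_le_sum h1
    rw [sum_const, nsmul_eq_mul] at h2
    push_cast
    refine h2.trans ?_
    have h3 : (((cells d k).filter (fun c => ¬ ∀ i, c i + 3 ≤ k)).card : ℝ) * k ≤
        2 * d * k ^ d := by exact_mod_cast card_bad d k hk
    have h4 : (((cells d k).filter (fun c => ¬ ∀ i, c i + 3 ≤ k)).card : ℝ) ≤
        2 * d * k ^ d / k := by rwa [le_div_iff₀ hk0]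
    refine (mul_le_mul_of_nonneg_right h4 (by positivity)).trans (le_of_eq ?_)
    field_simp
    ring
  have hw' : (2 * F T : ℝ) + ((∑ c ∈ G, cnt v k (T - m) T (fun i => k - 3 - c i) : ℕ) : ℝ) ≤
      2 * F (T - m) + m + m' +
        ((∑ c ∈ (cells d k).filter (fun c => ¬ ∀ i, c i + 3 ≤ k),
          cnt v k (T - m) T c : ℕ) : ℝ) + ((∑ c ∈ G, cnt v k (T - m) T c : ℕ) : ℝ) := by
    have h1 : T - (T - m) = m := by omega
    have h2 : T - (T - m') = m' := by omega
    rw [h1, h2] at hw
    exact_mod_cast hw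
  have hm'r : (m' : ℝ) = m / k := by
    rw [hmm]
    push_cast
    field_simp
  have h1 : (2 * F T : ℝ) ≤ 2 * F (T - m) + m + m / k + 4 * d / k * m + 2 * (m / k) := by
    linarith
  have h2 : (2 : ℝ) * ((1 / 2 + (4 * d + 3) / k) * m) =
      m + m / k + 4 * d / k * m + 2 * (m / k) + (4 * d + 3) / k * m := by
    field_simp
    ring
  have h3 : (0 : ℝ) ≤ (4 * d + 3) / k * m := by positivity
  linarith

open scoped Classical in
/-- **The deterministic bound.** -/
theorem bound {k : ℕ} (hk : 3 ≤ k) (n : ℕ) :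
    (F n : ℝ) ≤ (1 / 2 + (4 * d + 3) / k) * n +
      (((range (n + 1)).filter fun T => Mx d k ≤ T ∧ ¬ Conc v k T).card : ℝ) + Mx d k := by
  have hkr : (3 : ℝ) ≤ k := by exact_mod_cast hk
  have hk0 : (0 : ℝ) < k := by linarith
  have hρ : (0 : ℝ) ≤ 1 / 2 + (4 * d + 3) / k := by positivity
  induction n using Nat.strong_induction_on with
  | _ n ih =>
    have hc : ∀ n' ≤ n, (((range (n' + 1)).filter fun T => Mx d k ≤ T ∧ ¬ Conc v k T).card : ℝ) ≤
        (((range (n + 1)).filter fun T => Mx d k ≤ T ∧ ¬ Conc v k T).card : ℝ) := by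
      intro n' hn'
      have h1 := card_le_card (filter_subset_filter (fun T => Mx d k ≤ T ∧ ¬ Conc v k T)
        (range_subset_range.2 (show n' + 1 ≤ n + 1 by omega)))
      exact_mod_cast h1
    by_cases hn : Mx d k ≤ n
    · by_cases hC : Conc v k n
      · obtain ⟨m, hm1, hmn, h1⟩ := R.step hk hn hC
        have h2 := ih (n - m) (by omega)
        have h3 := hc (n - m) (by omega)
        have h4 : ((n - m : ℕ) : ℝ) = n - m := by rw [Nat.cast_sub hmn]
        rw [h4] at h2
        nlinarith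
      · have hM : 1 ≤ Mx d k := Nat.one_le_pow _ _ (by omega)
        obtain ⟨n', rfl⟩ : ∃ n', n = n' + 1 := ⟨n - 1, by omega⟩
        have h1 := ih n' (by omega)
        have h2 : (F (n' + 1) : ℝ) ≤ F n' + 1 := by exact_mod_cast R.F_succ_le n'
        have h3 : (((range (n' + 1 + 1)).filter fun T => Mx d k ≤ T ∧ ¬ Conc v k T).card : ℝ) =
            (((range (n' + 1)).filter fun T => Mx d k ≤ T ∧ ¬ Conc v k T).card : ℝ) + 1 := by
          rw [range_add_one (n := n' + 1), filter_insert, if_pos ⟨hn, hC⟩,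
            card_insert_of_notMem (by simp)]
          push_cast
          rfl
        rw [h3]
        push_cast
        linarith
    · have h1 : (F n : ℝ) ≤ n := by exact_mod_cast R.F_le n
      have h2 : (n : ℝ) ≤ Mx d k := by exact_mod_cast (by omega : n ≤ Mx d k)
      have h3 : (0 : ℝ) ≤ (1 / 2 + (4 * d + 3) / k) * n := by positivity
      have h4 : (0 : ℝ) ≤
        (((range (n + 1)).filter fun T => Mx d k ≤ T ∧ ¬ Conc v k T).card : ℝ) := by positivity
      linarith

end Run

end Pool.Agent.R660.VP
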